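import Pool.Agent.H590.PL.Stm

/-!
# GF: the general identity for F, from GEN and IF
-/

set_option autoImplicit false

open MeasureTheory Filter Topology Set
open scoped BigOperators ENNReal

namespace H734PL

open H590PL

set_option linter.unusedSectionVars false

variable {κ : Type} [Fintype κ]

theorem meas_tau (p : ℝ) (v : κ → P2) (k : κ) : Measurable (tau p v k) := by
  have h1 : Continuous (fun x : P2 => |ip (v k) x|) := by
    unfold ip
    fun_prop
  exact h1.measurable.pow_const p

theorem meas_exp (p : ℝ) (v : κ → P2) : Measurable (fun x => Real.exp (-(Ph p v one x))) := by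
  have h1 : Measurable (fun x => Ph p v one x) := by
    unfold Ph
    refine Finset.measurable_sum Finset.univ fun k _ => ?_
    exact (meas_tau p v k).const_mul (one k)
  exact Real.measurable_exp.comp h1.neg

theorem tau_nonneg (p : ℝ) (v : κ → P2) (k : κ) (x : P2) : 0 ≤ tau p v k x :=
  Real.rpow_nonneg (abs_nonneg _) p

theorem Ph_bu (p : ℝ) (v : κ → P2) (k : κ) (y : ℝ) (x : P2) :
    Ph p v (bu k y) x = Ph p v one x + y * tau p v k x := by
  classical
  unfold Ph bu one tau
  have h1 : ∀ j : κ, Function.update (fun _ : κ => (1 : ℝ)) k (1 + y) j * |ip (v j) x| ^ p =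
      1 * |ip (v j) x| ^ p + if j = k then y * |ip (v j) x| ^ p else 0 := by
    intro j
    by_cases h : j = k
    · rw [h, Function.update_self, if_pos rfl]
      ring
    · rw [Function.update_of_ne h, if_neg h, add_zero]
  have h2 : ∑ j, Function.update (fun _ : κ => (1 : ℝ)) k (1 + y) j * |ip (v j) x| ^ p =
      ∑ j, (1 * |ip (v j) x| ^ p + if j = k then y * |ip (v j) x| ^ p else 0) :=
    Finset.sum_congr rfl fun j _ => h1 j
  rw [Finset.sum_add_distrib, Finset.sum_ite_eq' Finset.univ k
    (fun j => y * |ip (v j) x| ^ p), if_pos (Finset.mem_univ k)] at h2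
  exact h2

theorem GF (h1 : S_GEN) (h2 : S_IF) : S_GF := by
  intro κ _ p hp hp2 v hv k
  obtain ⟨hI, _, hk⟩ := h2 κ p hp hp2.le v hv
  obtain ⟨hk1, hk2⟩ := hk k
  have hG := h1 (tau p v k) (fun x => Real.exp (-(Ph p v one x))) (fun _ => 0)
    (meas_tau p v k) (meas_exp p v) measurable_const (tau_nonneg p v k)
    (fun x => (Real.exp_pos _).le) (fun _ => le_rfl) (fun _ _ => rfl) hI
    (integrable_zero _ _ _) hk1
    (by simp only [zero_mul]; exact integrable_zero _ _ _)
    (by simp only [add_zero]; exact hk2)
    (by simp only [zero_mul]; exact integrable_zero _ _ _)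
  have hL : ∀ y : ℝ, ((∫ x, Real.exp (-(y * tau p v k x)) *
        (Real.exp (-(Ph p v one x)) + (1 + y) * 0)) - (∫ x, (Real.exp (-(Ph p v one x)) + 0))
        - y * Real.exp (-y) * ∫ x, (0 - tau p v k x * (Real.exp (-(Ph p v one x)) + 0))) / y ^ 2
      = (FF p v (bu k y) - FF p v one + y * Real.exp (-y) * TT p v k) / y ^ 2 := by
    intro y
    have e1 : (∫ x, Real.exp (-(y * tau p v k x)) *
        (Real.exp (-(Ph p v one x)) + (1 + y) * 0)) = FF p v (bu k y) := by
      unfold FF
      refine integral_congr_ae (Filter.Eventually.of_forall fun x => ?_)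
      show Real.exp (-(y * tau p v k x)) * (Real.exp (-(Ph p v one x)) + (1 + y) * 0) =
        Real.exp (-(Ph p v (bu k y) x))
      rw [mul_zero, add_zero, ← Real.exp_add, Ph_bu]
      congr 1
      ring
    have e2 : (∫ x, (Real.exp (-(Ph p v one x)) + 0)) = FF p v one := by
      unfold FF
      simp only [add_zero]
    have e3 : (∫ x, (0 - tau p v k x * (Real.exp (-(Ph p v one x)) + 0))) = - TT p v k := by
      unfold TT
      rw [← integral_neg]
      refine integral_congr_ae (Filter.Eventually.of_forall fun x => ?_)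
      show 0 - tau p v k x * (Real.exp (-(Ph p v one x)) + 0) =
        -(Real.exp (-(Ph p v one x)) * tau p v k x)
      ring
    rw [e1, e2, e3]
    ring
  have hR : (∫ x, ((Real.exp (-(Ph p v one x)) + 0) *
      (tau p v k x * Real.log (tau p v k x) - tau p v k x) - 0 * Real.log (tau p v k x))) =
      DFk p v k - TT p v k := by
    unfold DFk TT
    rw [← integral_sub hk2 hk1]
    refine integral_congr_ae (Filter.Eventually.of_forall fun x => ?_)
    show (Real.exp (-(Ph p v one x)) + 0) *
      (tau p v k x * Real.log (tau p v k x) - tau p v k x) - 0 * Real.log (tau p v k x) =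
      Real.exp (-(Ph p v one x)) * (tau p v k x * Real.log (tau p v k x)) -
        Real.exp (-(Ph p v one x)) * tau p v k x
    ring
  have hF := funext hL
  obtain ⟨hG1, hG2⟩ := hG
  rw [hR] at hG2
  rw [hF] at hG1
  rw [hF] at hG2
  exact ⟨hG1, hG2⟩

end H734PL
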